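import Pool.Agent.Q145.PQ.Stm
import Pool.Agent.Q53.LQ.HSQ

/-! # Project PQ (helper145), job SPJ: the pair singular series of one pair -/

set_option autoImplicit false

namespace Pool.Agent.Q38.PQ

open Finset
open Pool.Agent.Q145.SZ Pool.Agent.Q145.PQ
open Pool.Agent.Q145.LQ (vq Sys JP)
open Pool.Agent.Q53.LQ.HSQ (JP_one_le SP_le_JP)

theorem dst_int (x y : ℕ) : (dst x y : ℤ) = |(x : ℤ) - y| := by
  unfold dst
  rcases le_total x y with h | h
  · rw [Nat.sub_eq_zero_of_le h, zero_add, Nat.cast_sub h, abs_of_nonpos (by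
      have : (x : ℤ) ≤ y := by exact_mod_cast h
      linarith)]
    ring
  · rw [Nat.sub_eq_zero_of_le h, add_zero, Nat.cast_sub h, abs_of_nonneg (by
      have : (y : ℤ) ≤ x := by exact_mod_cast h
      linarith)]

theorem JP_mul_eq {z a h : ℕ} (ha : a ≠ 0) (haz : a ≤ z) (hh : h ≠ 0) :
    JP z (a * h) = JP z h := by
  unfold JP
  rw [Nat.primeFactors_mul ha hh, filter_union]
  have h1 : a.primeFactors.filter (fun p => z < p) = ∅ := by
    rw [filter_eq_empty_iff]
    intro p hp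
    have h2 := Nat.le_of_mem_primeFactors hp
    omega
  rw [h1, empty_union]

theorem t_SPJ : Pool.Agent.Q145.PQ.S_SPJ := by
  intro z Y K H q hz hS hq i n hn m hm hnm
  obtain ⟨a, c, hac⟩ := hq i
  have hdeg := (hS.deg i).1
  have ha : a ≠ 0 := by
    rintro rfl
    rw [hac] at hdeg
    simp at hdeg
  have hnat : (q i).natDegree = 2 := by
    rw [hac, Polynomial.natDegree_add_C, Polynomial.natDegree_C_mul_X_pow 2 a ha]
  have hlc : (q i).leadingCoeff = a := by
    unfold Polynomial.leadingCoeff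
    rw [hnat, hac, Polynomial.coeff_add, Polynomial.coeff_C_mul, Polynomial.coeff_X_pow,
      Polynomial.coeff_C]
    norm_num
  have haz : a.natAbs ≤ z := by
    have := hS.lead i
    rwa [hlc] at this
  have hvq : ∀ n ∈ Ioc Y (2 * Y), (vq (q i) n : ℤ) = a * (n : ℤ) ^ 2 + c := by
    intro n hn
    have h1 := (hS.val i n hn).1
    have h2 : (q i).eval (n : ℤ) = a * (n : ℤ) ^ 2 + c := by
      rw [hac]
      simp
    have h3 : (0 : ℤ) ≤ H i := Int.natCast_nonneg _
    unfold vq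
    rw [Int.toNat_of_nonneg (by linarith), h2]
  have hsq : n ^ 2 ≠ m ^ 2 := fun h => hnm (Nat.pow_left_injective two_ne_zero h)
  have hd0 : dst (n ^ 2) (m ^ 2) ≠ 0 := by
    unfold dst
    omega
  have hd : dst (vq (q i) n) (vq (q i) m) = a.natAbs * dst (n ^ 2) (m ^ 2) := by
    have h1 : (dst (vq (q i) n) (vq (q i) m) : ℤ) = ((a.natAbs * dst (n ^ 2) (m ^ 2) : ℕ) : ℤ) := by
      push_cast
      rw [dst_int, dst_int, hvq n hn, hvq m hm, ← abs_mul]
      congr 1
      push_cast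
      ring
    exact_mod_cast h1
  have ha0 : a.natAbs ≠ 0 := Int.natAbs_ne_zero.mpr ha
  have hdd : dst (vq (q i) n) (vq (q i) m) ≠ 0 := by
    rw [hd]
    exact mul_ne_zero ha0 hd0
  refine ⟨?_, ?_, JP_one_le _ _⟩
  · intro h
    apply hdd
    rw [h]
    simp [dst]
  · refine (SP_le_JP (by omega) hdd).trans (le_of_eq ?_)
    rw [hd, JP_mul_eq ha0 haz hd0]

end Pool.Agent.Q38.PQ
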